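import Pool.Agent.Helper89.HX.St
import Pool.Agent.Helper56.SW.Basic

/-! Project HX (MP_e188f1_nt): common lemmas for the modules Sk, CS, Pr (helper45). -/

set_option autoImplicit false

namespace Pool.Agent.Helper89.HX

open Finset Pool.Agent.Helper56.SW

theorem c45_unit {c B : ℕ} (hB : 4 * B < c) {x : ℤ} (h0 : x ≠ 0) (hx : |x| ≤ B) :
    ¬ (c : ℤ) ∣ x := by
  intro h
  have h1 := Int.le_of_dvd (abs_pos.mpr h0) ((dvd_abs _ _).mpr h)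
  omega

theorem c45_eq {c B : ℕ} (hB : 4 * B < c) {x y : ℤ} (hx : |x| ≤ B) (hy : |y| ≤ B)
    (h : (c : ℤ) ∣ x - y) : x = y := by
  by_contra hne
  have h1 := Int.le_of_dvd (abs_pos.mpr (sub_ne_zero.mpr hne)) ((dvd_abs _ _).mpr h)
  have h2 := abs_sub x y
  omega

theorem c45_cancel {c : ℕ} (hc : c.Prime) {a x : ℤ} (ha : ¬ (c : ℤ) ∣ a)
    (h : (c : ℤ) ∣ a * x) : (c : ℤ) ∣ x :=
  ((Nat.prime_iff_prime_int.mp hc).dvd_or_dvd h).resolve_left ha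

theorem c45_mul {c : ℕ} (hc : c.Prime) {a x : ℤ} (ha : ¬ (c : ℤ) ∣ a)
    (hx : ¬ (c : ℤ) ∣ x) : ¬ (c : ℤ) ∣ a * x :=
  fun h => hx (c45_cancel hc ha h)

theorem c45_red {c : ℕ} (hc : c.Prime) (lam : ℤ) : ∃ r : ℕ, r < c ∧ (c : ℤ) ∣ lam - r := by
  have hc0 : (0 : ℤ) < c := by exact_mod_cast hc.pos
  refine ⟨(lam % c).toNat, ?_, ?_⟩
  · have h1 := Int.emod_lt_of_pos lam hc0
    have h2 := Int.emod_nonneg lam hc0.ne'
    omega
  · rw [Int.toNat_of_nonneg (Int.emod_nonneg _ hc0.ne'), Int.emod_def]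
    exact ⟨lam / c, by ring⟩

theorem c45_lam {c : ℕ} (hc : c.Prime) {x : ℤ} (z : ℤ) (hx : ¬ (c : ℤ) ∣ x) :
    ∃ r : ℕ, r < c ∧ (c : ℤ) ∣ z - r * x := by
  have hcop : IsCoprime x (c : ℤ) :=
    ((Nat.prime_iff_prime_int.mp hc).coprime_iff_not_dvd.mpr hx).symm
  obtain ⟨u, v, huv⟩ := hcop
  obtain ⟨r, hr, w, hw⟩ := c45_red hc (z * u)
  refine ⟨r, hr, z * v + w * x, ?_⟩
  linear_combination (-z) * huv + x * hw

theorem c45_shift {c : ℕ} {lam lam' x z : ℤ} (h : (c : ℤ) ∣ lam - lam') (hz : (c : ℤ) ∣ z - lam * x) :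
    (c : ℤ) ∣ z - lam' * x := by
  have e : z - lam' * x = (z - lam * x) + (lam - lam') * x := by ring
  rw [e]
  exact dvd_add hz (Dvd.dvd.mul_right h x)

theorem c45_La {c A B : ℕ} {lam : ℤ} {P : ℤ × ℤ} :
    P ∈ La c lam A B ↔ (|P.1| ≤ A ∧ |P.2| ≤ B) ∧ (c : ℤ) ∣ P.2 - lam * P.1 := by
  unfold La bo
  rw [mem_filter, mem_product, mem_I, mem_I]

theorem c45_La_shift {c A B : ℕ} {lam lam' : ℤ} (h : (c : ℤ) ∣ lam - lam') {P : ℤ × ℤ}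
    (hP : P ∈ La c lam A B) : P ∈ La c lam' A B := by
  rw [c45_La] at hP ⊢
  exact ⟨hP.1, c45_shift h hP.2⟩

theorem c45_Bs_shift {c A B k : ℕ} {lam lam' : ℤ} {e f : ℤ × ℤ} (h : (c : ℤ) ∣ lam - lam')
    (hb : Bs c A B k lam e f) : Bs c A B k lam' e f where
  e_mem := c45_shift h hb.e_mem
  f_mem := c45_shift h hb.f_mem
  det := hb.det
  e1 := hb.e1
  e2 := hb.e2
  f1 := hb.f1
  f2 := hb.f2
  e1' := hb.e1'
  e2' := hb.e2'
  f1' := hb.f1'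
  f2' := hb.f2'
  le := hb.le
  comb := fun P hP => hb.comb P (c45_La_shift (by
    have e : lam' - lam = -(lam - lam') := by ring
    rw [e]
    exact (dvd_neg).mpr h) hP)

theorem c45_Sol {c : ℕ} {β : ℤ} {A B : ℕ} {T : Tp} (h : T ∈ Sol c β A B) :
    ((|T.1.1| ≤ A ∧ |T.1.2| ≤ B) ∧ (|T.2.1.1| ≤ A ∧ |T.2.1.2| ≤ B) ∧
      (|T.2.2.1| ≤ A ∧ |T.2.2.2| ≤ B)) ∧ Rl c β T := by
  classical
  unfold Sol at h
  rw [mem_filter, mem_product, mem_product] at h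
  unfold bo at h
  rw [mem_product, mem_product, mem_product] at h
  simp only [mem_I] at h
  exact h

theorem c45_SolN {c : ℕ} {β : ℤ} {A B : ℕ} {T : Tp} (h : T ∈ SolN c β A B) :
    T ∈ Sol c β A B ∧ NZ T ∧ ¬ Dg c β T ∧ wd T.1 T.2.1 ≠ 0 := by
  classical
  unfold SolN at h
  rw [mem_filter] at h
  exact h

theorem c45_SolG {c : ℕ} {β : ℤ} {A B : ℕ} {T : Tp} :
    T ∈ SolG c β A B ↔ T ∈ SolN c β A B ∧ Gd c A B T := by
  classical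
  unfold SolG
  rw [mem_filter]

/-- the sum of the first coordinates is `- β lam` times their product -/
theorem c45_sum {c : ℕ} {β lam : ℤ} {T : Tp}
    (h4 : (c : ℤ) ∣ T.1.1 + T.2.1.1 + T.2.2.1 + β * T.1.1 * T.2.1.1 * T.2.2.2)
    (h3 : (c : ℤ) ∣ T.2.2.2 - lam * T.2.2.1) :
    (c : ℤ) ∣ (sg T).1 + β * lam * px T := by
  have e : (sg T).1 + β * lam * px T =
      (T.1.1 + T.2.1.1 + T.2.2.1 + β * T.1.1 * T.2.1.1 * T.2.2.2) -
        (β * T.1.1 * T.2.1.1) * (T.2.2.2 - lam * T.2.2.1) := by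
    unfold sg px
    ring
  rw [e]
  exact dvd_sub h4 (Dvd.dvd.mul_left h3 _)

end Pool.Agent.Helper89.HX
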